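import Pool.Agent.H84.EM.Two

/-!
MP_3b0ce5_lc (shortest graphs, random first coordinates): many square classes give many independent vertices with private classes.
-/

set_option autoImplicit false

namespace Pool.Agent.H84.EM

open Finset

open Pool.Agent.H92.SR hiding nb

open Pool.Agent.H84.TS (nb nb_ne sum_le mix pt pt_inj sf_sq)

open Pool.Agent.H84.SM (radS dd lens len Deg Shortest indep)

variable {n : ℕ}

/-- the square classes at a vertex, without `1` and the class of `0` -/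
noncomputable def clv (Y : Fin n → Fin n → ℕ) (x : Fin n → ℕ) (G : List (Fin n × Fin n)) (o : Fin n) : Finset ℕ :=
  ((nb o G).toFinset.image fun t => sf (dd Y x o t)) \ {1, sf 0}

theorem mem_clv {Y : Fin n → Fin n → ℕ} {x : Fin n → ℕ} {G : List (Fin n × Fin n)} {o : Fin n} {d : ℕ} :
    d ∈ clv Y x G o ↔ d ≠ 1 ∧ d ≠ sf 0 ∧ ∃ t ∈ nb o G, sf (dd Y x o t) = d := by
  unfold clv
  rw [mem_sdiff, mem_image, mem_insert, mem_singleton, not_or]
  constructor
  · rintro ⟨⟨t, ht, h1⟩, h2, h3⟩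
    exact ⟨h2, h3, t, List.mem_toFinset.1 ht, h1⟩
  · rintro ⟨h2, h3, t, ht, h1⟩
    exact ⟨⟨t, List.mem_toFinset.2 ht, h1⟩, h2, h3⟩

theorem card_clv {D : ℕ} (Y : Fin n → Fin n → ℕ) (x : Fin n → ℕ) {G : List (Fin n × Fin n)} (hG : Deg D G) (o : Fin n) :
    (clv Y x G o).card ≤ D := by
  unfold clv
  exact (Finset.card_le_card Finset.sdiff_subset).trans
    (Finset.card_image_le.trans ((List.toFinset_card_le _).trans (hG.2 o)))

/-- all square classes at the vertices in `U`, without `1` and the class of `0` -/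
noncomputable def cla (U : Finset (Fin n)) (Y : Fin n → Fin n → ℕ) (x : Fin n → ℕ) (G : List (Fin n × Fin n)) :
    Finset ℕ :=
  U.biUnion fun o => clv Y x G o

theorem card_cla {D : ℕ} (U : Finset (Fin n)) (Y : Fin n → Fin n → ℕ) (x : Fin n → ℕ) {G : List (Fin n × Fin n)}
    (hG : Deg D G) : (cla U Y x G).card ≤ D * U.card := by
  unfold cla
  refine Finset.card_biUnion_le.trans ?_
  calc ∑ o ∈ U, (clv Y x G o).card ≤ ∑ _o ∈ U, D := Finset.sum_le_sum fun o _ => card_clv Y x hG o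
    _ = D * U.card := by rw [Finset.sum_const, smul_eq_mul, mul_comm]

theorem priv {D m : ℕ} {U : Finset (Fin n)} {Y : Fin n → Fin n → ℕ} {x : Fin n → ℕ} {G : List (Fin n × Fin n)}
    (hG : Deg D G) (h : (D + 1) ^ 2 * m ≤ (cla U Y x G).card) : ∃ I : Finset (Fin n), I.card = m ∧
    (∀ o ∈ I, o ∈ U) ∧ (∀ o ∈ I, ∀ t ∈ nb o G, t ∉ I) ∧ ∀ o ∈ I, ∃ d ∈ clv Y x G o, ∀ o' ∈ I, o' ≠ o → d ∉ clv Y x G o' := by
  classical
  obtain ⟨O, hO, hmin⟩ := Finset.exists_min_image
    (U.powerset.filter fun O => cla U Y x G ⊆ O.biUnion fun o => clv Y x G o) (fun O => O.card)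
    ⟨U, mem_filter.2 ⟨mem_powerset.2 (fun _ h => h), fun d hd => hd⟩⟩
  have hOU := mem_powerset.1 (mem_filter.1 hO).1
  have hcov := (mem_filter.1 hO).2
  have hpr : ∀ o ∈ O, ∃ d ∈ clv Y x G o, ∀ o' ∈ O, o' ≠ o → d ∉ clv Y x G o' := by
    intro o ho
    have h1 : ¬ cla U Y x G ⊆ (O.erase o).biUnion fun o => clv Y x G o := by
      intro h2
      have h3 := hmin (O.erase o) (mem_filter.2
        ⟨mem_powerset.2 ((Finset.erase_subset _ _).trans hOU), h2⟩)
      have h4 := Finset.card_erase_lt_of_mem ho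
      omega
    rw [Finset.not_subset] at h1
    obtain ⟨d, hd, hd2⟩ := h1
    have h5 := hcov hd
    rw [mem_biUnion] at h5
    obtain ⟨o1, ho1, hd1⟩ := h5
    have h6 : o1 = o := by
      by_contra hne
      exact hd2 (mem_biUnion.2 ⟨o1, mem_erase.2 ⟨hne, ho1⟩, hd1⟩)
    rw [h6] at hd1
    exact ⟨d, hd1, fun o' ho' hne hd' => hd2 (mem_biUnion.2 ⟨o', mem_erase.2 ⟨hne, ho'⟩, hd'⟩)⟩
  have hcard : (cla U Y x G).card ≤ D * O.card := by
    refine (Finset.card_le_card hcov).trans (Finset.card_biUnion_le.trans ?_)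
    calc ∑ o ∈ O, (clv Y x G o).card ≤ ∑ _o ∈ O, D := Finset.sum_le_sum fun o _ => card_clv Y x hG o
      _ = D * O.card := by rw [Finset.sum_const, smul_eq_mul, mul_comm]
  have hOc : m * (D + 1) ≤ O.card := by
    have h1 : (D + 1) * (m * (D + 1)) ≤ (D + 1) * O.card := by
      calc (D + 1) * (m * (D + 1)) = (D + 1) ^ 2 * m := by ring
        _ ≤ D * O.card := h.trans hcard
        _ ≤ (D + 1) * O.card := Nat.mul_le_mul_right _ (Nat.le_succ D)
    exact Nat.le_of_mul_le_mul_left h1 (Nat.succ_pos D)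
  obtain ⟨I, hI1, hI2, hI3⟩ := indep hG m O hOc
  refine ⟨I, hI2, fun o ho => hOU (hI1 ho), hI3, fun o ho => ?_⟩
  obtain ⟨d, hd, hp⟩ := hpr o (hI1 ho)
  exact ⟨d, hd, fun o' ho' hne => hp o' (hI1 ho') hne⟩

end Pool.Agent.H84.EM
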