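import Pool.Agent.H84.SM.Set
import Pool.Agent.H84.OS.Set

/-!
MP_3b0ce5_lc (shortest graphs, random first coordinates): a sum of hyperbolas takes each value at most twice, and the sums over one
square class.
-/

set_option autoImplicit false

namespace Pool.Agent.H84.EM

open Finset

open Pool.Agent.H92.SR hiding nb

open Pool.Agent.H84.TS (nb nb_ne sum_le mix pt pt_inj sf_sq hy slope_lt)

open Pool.Agent.H84.SM (radS sqrt_radS dd lens len Deg Shortest dd_comm loc awayI mem_nb indep len_splitI length_le awayI_mix JJ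
  card_JJ loc_sumI len_leL self_pow_le)

theorem slope_le (c : ℝ) {a b e : ℝ} (h1 : a < b) (h2 : b < e) :
    (hy c b - hy c a) * (e - b) ≤ (hy c e - hy c b) * (b - a) := by
  by_cases hc : c = 0
  · have hh : ∀ y : ℝ, hy c y = |y| := by
      intro y
      unfold hy
      rw [hc, zero_pow (by norm_num), add_zero, Real.sqrt_sq_eq_abs]
    rw [hh, hh, hh]
    have h3 : |b| * (e - a) ≤ |a| * (e - b) + |e| * (b - a) := by
      have e1 : |b| * (e - a) = |b * (e - a)| := by rw [abs_mul, abs_of_pos (by linarith : 0 < e - a)]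
      have e2 : |a| * (e - b) = |a * (e - b)| := by rw [abs_mul, abs_of_pos (by linarith : 0 < e - b)]
      have e3 : |e| * (b - a) = |e * (b - a)| := by rw [abs_mul, abs_of_pos (by linarith : 0 < b - a)]
      rw [e1, e2, e3]
      have e4 : b * (e - a) = a * (e - b) + e * (b - a) := by ring
      rw [e4]
      exact abs_add_le _ _
    nlinarith
  · exact (slope_lt hc h1 le_rfl h2).le

theorem two_vals {ι : Type} [Fintype ι] (S : Finset ι) (xs Ys : ι → ℕ) (hS : ∃ i ∈ S, Ys i ≠ 0) (c : ℝ) (V : Finset ℕ)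
    (hV : ∀ v ∈ V, ∑ i ∈ S, √(radS v (xs i) (Ys i) : ℝ) = c) : V.card ≤ 2 := by
  classical
  by_contra hcon
  rw [not_le] at hcon
  have he1 : ∀ i : Fin V.card, V.orderEmbOfFin rfl i ∈ V := fun i => Finset.orderEmbOfFin_mem V rfl i
  obtain ⟨v1, v2, v3, h1, h2, h3, h12, h23⟩ : ∃ v1 v2 v3 : ℕ, v1 ∈ V ∧ v2 ∈ V ∧ v3 ∈ V ∧ v1 < v2 ∧ v2 < v3 := by
    refine ⟨_, _, _, he1 ⟨0, by omega⟩, he1 ⟨1, by omega⟩, he1 ⟨2, by omega⟩, ?_, ?_⟩
    · exact (V.orderEmbOfFin rfl).strictMono (by simp)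
    · exact (V.orderEmbOfFin rfl).strictMono (by simp)
  have r12 : (v1 : ℝ) < v2 := by exact_mod_cast h12
  have r23 : (v2 : ℝ) < v3 := by exact_mod_cast h23
  obtain ⟨f, hf⟩ : ∃ f : ι → ℝ → ℝ, f = fun i v => hy √(Ys i : ℝ) (v - xs i) := ⟨_, rfl⟩
  have hfr : ∀ v : ℕ, ∀ i, √(radS v (xs i) (Ys i) : ℝ) = f i v := by
    intro v i
    rw [hf, sqrt_radS]
    simp
  have hsum : ∀ v ∈ V, ∑ i ∈ S, f i v = c := by
    intro v hv
    rw [← hV v hv]
    exact Finset.sum_congr rfl fun i _ => (hfr v i).symm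
  have hle : ∀ i ∈ S, (f i v2 - f i v1) * ((v3 : ℝ) - v2) ≤ (f i v3 - f i v2) * ((v2 : ℝ) - v1) := by
    intro i _
    rw [hf]
    have := slope_le √(Ys i : ℝ) (a := (v1 : ℝ) - xs i) (b := (v2 : ℝ) - xs i) (e := (v3 : ℝ) - xs i)
      (by linarith) (by linarith)
    simp only [sub_sub_sub_cancel_right] at this
    exact this
  have hlt : ∃ i ∈ S, (f i v2 - f i v1) * ((v3 : ℝ) - v2) < (f i v3 - f i v2) * ((v2 : ℝ) - v1) := by
    obtain ⟨i, hi, hYi⟩ := hS
    refine ⟨i, hi, ?_⟩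
    rw [hf]
    have hc0 : √(Ys i : ℝ) ≠ 0 := by
      rw [Real.sqrt_ne_zero']
      exact_mod_cast Nat.pos_of_ne_zero hYi
    have := slope_lt hc0 (a := (v1 : ℝ) - xs i) (b := (v2 : ℝ) - xs i) (a' := (v2 : ℝ) - xs i) (b' := (v3 : ℝ) - xs i)
      (by linarith) le_rfl (by linarith)
    simp only [sub_sub_sub_cancel_right] at this
    exact this
  have h4 := Finset.sum_lt_sum hle hlt
  rw [← Finset.sum_mul, ← Finset.sum_mul, Finset.sum_sub_distrib, Finset.sum_sub_distrib, hsum v1 h1, hsum v2 h2,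
    hsum v3 h3] at h4
  simp at h4

theorem cls_part {J : Type} [Fintype J] {a a' : J → ℕ} (h : ∑ j, √(a j : ℝ) = ∑ j, √(a' j : ℝ)) (d : ℕ) :
    ∑ j, (if sf (a j) = d then √(a j : ℝ) else 0) = ∑ j, (if sf (a' j) = d then √(a' j : ℝ) else 0) := by
  classical
  obtain ⟨D, hD⟩ : ∃ D, D = Finset.univ.image (fun j => sf (a j)) ∪ Finset.univ.image (fun j => sf (a' j)) :=
    ⟨_, rfl⟩
  have hD1 : ∀ j, sf (a j) ∈ D := fun j => by
    rw [hD]
    exact Finset.mem_union_left _ (Finset.mem_image_of_mem _ (Finset.mem_univ j))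
  have hD2 : ∀ j, sf (a' j) ∈ D := fun j => by
    rw [hD]
    exact Finset.mem_union_right _ (Finset.mem_image_of_mem _ (Finset.mem_univ j))
  by_cases hd : d ∈ D
  · have hDs : ∀ d ∈ D, Squarefree d := by
      intro d hd
      rw [hD, Finset.mem_union, Finset.mem_image, Finset.mem_image] at hd
      rcases hd with ⟨i, _, rfl⟩ | ⟨i, _, rfl⟩
      · exact (sf_spec _).2
      · exact (sf_spec _).2
    have e1 := cls_sum a hD1
    have e2 := cls_sum a' hD2
    rw [h, e2] at e1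
    have h2 := ind hDs (fun d => ((∑ j ∈ Finset.univ.filter (fun j => sf (a j) = d), rt (a j) : ℕ) : ℤ) -
      ((∑ j ∈ Finset.univ.filter (fun j => sf (a' j) = d), rt (a' j) : ℕ) : ℤ)) (by
        push_cast
        simp only [sub_mul]
        rw [Finset.sum_sub_distrib]
        push_cast at e1
        linarith) d hd
    have h3 : (∑ j ∈ Finset.univ.filter (fun j => sf (a j) = d), rt (a j) : ℕ) =
      ∑ j ∈ Finset.univ.filter (fun j => sf (a' j) = d), rt (a' j) := by omega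
    have h4 : ∀ e : J → ℕ, ∑ j, (if sf (e j) = d then √(e j : ℝ) else 0) =
        ((∑ j ∈ Finset.univ.filter (fun j => sf (e j) = d), rt (e j) : ℕ) : ℝ) * √(d : ℝ) := by
      intro e
      push_cast
      rw [Finset.sum_mul, Finset.sum_filter]
      refine Finset.sum_congr rfl fun j _ => ?_
      by_cases hj : sf (e j) = d
      · rw [if_pos hj, if_pos hj, sqrt_cls (e j), hj]
      · rw [if_neg hj, if_neg hj]
    rw [h4 a, h4 a', h3]
  · rw [Finset.sum_eq_zero, Finset.sum_eq_zero]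
    · intro j _
      rw [if_neg]
      intro h1
      exact hd (h1 ▸ hD2 j)
    · intro j _
      rw [if_neg]
      intro h1
      exact hd (h1 ▸ hD1 j)

end Pool.Agent.H84.EM
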